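import Pool.Agent.U10.Q.Stm

/-!
Project LQ, package B (helper411): the elementary Farey lemma.
-/

set_option autoImplicit false

namespace Pool.Agent.U10.Q.B

theorem proof : S_B := by
  intro q c hq hcq hrep
  obtain ⟨v, w, s, hv, hvw, hwq, hcs, hsc, hqw⟩ := hrep
  have hq0 : 0 < q := hq.pos
  have hvq : Nat.Coprime v q := by
    rw [Nat.coprime_comm]
    exact (Nat.Prime.coprime_iff_not_dvd hq).2 (Nat.not_dvd_of_pos_of_lt (by omega) (by omega))
  -- the number `u`
  obtain ⟨u, hu, hdvd⟩ : ∃ u : ℕ, u < v ∧ v ∣ u * q + w := by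
    have : NeZero v := ⟨by omega⟩
    let U : (ZMod v)ˣ := ZMod.unitOfCoprime q hvq.symm
    refine ⟨(-(w : ZMod v) * ((U⁻¹ : (ZMod v)ˣ) : ZMod v)).val, ZMod.val_lt _, ?_⟩
    rw [← CharP.cast_eq_zero_iff (ZMod v) v]
    push_cast
    rw [ZMod.natCast_val, ZMod.cast_id', id_eq]
    have h1 : ((U⁻¹ : (ZMod v)ˣ) : ZMod v) * (q : ZMod v) = 1 := by
      have := U.inv_mul
      rwa [show ((U : (ZMod v)ˣ) : ZMod v) = (q : ZMod v) from ZMod.coe_unitOfCoprime q _] at this
    rw [mul_assoc, h1]
    ring
  obtain ⟨b, hb⟩ := hdvd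
  have hdj : v ∣ c * u + 1 := by
    have h1 : v ∣ q * (c * u + 1) + v * s := by
      refine ⟨c * b, ?_⟩
      calc q * (c * u + 1) + v * s = c * (u * q) + (q + v * s) := by ring
        _ = c * (u * q) + c * w := by rw [hqw]
        _ = c * (u * q + w) := by ring
        _ = c * (v * b) := by rw [hb]
        _ = v * (c * b) := by ring
    have h2 : v ∣ q * (c * u + 1) := (Nat.dvd_add_left ⟨s, rfl⟩).1 h1
    exact (Nat.Coprime.dvd_of_dvd_mul_left hvq h2)
  obtain ⟨j, hj⟩ := hdj
  have hcb : c * b = q * j + s := by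
    have h1 : v * (c * b) = v * (q * j + s) := by
      calc v * (c * b) = c * (v * b) := by ring
        _ = c * (u * q + w) := by rw [hb]
        _ = c * (u * q) + c * w := by ring
        _ = c * (u * q) + (q + v * s) := by rw [hqw]
        _ = q * (c * u + 1) + v * s := by ring
        _ = q * (v * j) + v * s := by rw [hj]
        _ = v * (q * j + s) := by ring
    exact Nat.eq_of_mul_eq_mul_left (by omega) h1
  have hj1 : 1 ≤ j := by
    rcases Nat.eq_zero_or_pos j with h0 | h0
    · rw [h0] at hj; omega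
    · exact h0
  have hb1 : 1 ≤ b := by
    rcases Nat.eq_zero_or_pos b with h0 | h0
    · rw [h0, mul_zero] at hb
      omega
    · exact h0
  have hbq : b < q := by
    have h1 : v * b < v * q := by
      rw [← hb]
      have : (u + 1) * q ≤ v * q := Nat.mul_le_mul_right q hu
      have h2 : (u + 1) * q = u * q + q := by ring
      omega
    exact Nat.lt_of_mul_lt_mul_left h1
  have hb2 : 2 ≤ b := by
    by_contra h
    have : b = 1 := by omega
    rw [this, mul_one] at hcb
    have h2 : q * 1 ≤ q * j := Nat.mul_le_mul_left q hj1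
    omega
  have hsq : s < q := by omega
  refine ⟨b, hb2, hbq, ?_, ?_⟩
  · unfold D
    have h1 : c * b / q = j := by
      rw [hcb, Nat.mul_add_div hq0, Nat.div_eq_of_lt hsq, add_zero]
    have h2 : c * (b - 1) / q = j - 1 := by
      obtain ⟨j', rfl⟩ : ∃ j', j = j' + 1 := ⟨j - 1, by omega⟩
      obtain ⟨b', rfl⟩ : ∃ b', b = b' + 1 := ⟨b - 1, by omega⟩
      rw [Nat.add_sub_cancel, Nat.add_sub_cancel]
      have h3 : c * b' + c = q * j' + q + s := by
        have e1 : c * (b' + 1) = c * b' + c := by ring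
        have e2 : q * (j' + 1) = q * j' + q := by ring
        omega
      rw [Nat.div_eq_iff hq0]
      constructor
      · rw [mul_comm j' q]; omega
      · rw [mul_comm j' q]; omega
    rw [h1, h2]
    omega
  · intro a hac
    unfold D
    apply Nat.sub_eq_zero_of_le
    by_contra hlt
    push Not at hlt
    obtain ⟨i, hi⟩ : ∃ i, i = a * b / q := ⟨_, rfl⟩
    rw [← hi] at hlt
    have h1 : i * q ≤ a * b := by
      rw [hi]
      exact Nat.div_mul_le_self _ _
    have h2 : a * (b - 1) < i * q := by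
      rwa [Nat.div_lt_iff_lt_mul hq0] at hlt
    -- integers
    have z1 : (i : ℤ) * q ≤ a * b := by exact_mod_cast h1
    have z2 : (a : ℤ) * b - a < i * q := by
      have h3 : (a : ℤ) * ((b - 1 : ℕ) : ℤ) < i * q := by exact_mod_cast h2
      rw [Nat.cast_sub hb1] at h3
      push_cast at h3
      linarith
    have zb : (v : ℤ) * b = u * q + w := by exact_mod_cast hb.symm
    have zj : (v : ℤ) * j = c * u + 1 := by exact_mod_cast hj.symm
    have zcb : (c : ℤ) * b = q * j + s := by exact_mod_cast hcb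
    have zv : (1 : ℤ) ≤ v := by exact_mod_cast hv
    have zvw : (v : ℤ) ≤ w := by exact_mod_cast hvw
    have zac : (a : ℤ) < c := by exact_mod_cast hac
    have zq : (0 : ℤ) < q := by exact_mod_cast hq0
    have zcs : (c : ℤ) * s ≤ q := by exact_mod_cast hcs
    have zs : (0 : ℤ) ≤ s := by positivity
    have za : (0 : ℤ) ≤ a := by positivity
    obtain ⟨t, ht⟩ : ∃ t : ℤ, t = a * b - i * q := ⟨_, rfl⟩
    have ht0 : 0 ≤ t := by linarith
    have hta : t < a := by linarith
    obtain ⟨X, hX⟩ : ∃ X : ℤ, X = v * i - u * a := ⟨_, rfl⟩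
    obtain ⟨Y, hY⟩ : ∃ Y : ℤ, Y = a * j - c * i := ⟨_, rfl⟩
    have e1 : (a : ℤ) * w - v * t = q * X := by
      rw [ht, hX]
      linear_combination (-(a : ℤ)) * zb
    have e2 : (c : ℤ) * t - a * s = q * Y := by
      rw [ht, hY]
      linear_combination (a : ℤ) * zcb
    have e3 : (c : ℤ) * X + v * Y = a := by
      rw [hX, hY]
      linear_combination (a : ℤ) * zj
    have hX1 : 1 ≤ X := by
      have h5 : 0 < (a : ℤ) * w - v * t := by nlinarith
      rw [e1] at h5
      have h6 : 0 < X := (mul_pos_iff_of_pos_left zq).1 h5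
      omega
    have hY1 : Y ≤ -1 := by
      by_contra h
      push Not at h
      have h6 : 0 ≤ Y := by omega
      have h7 : (c : ℤ) * 1 ≤ c * X := mul_le_mul_of_nonneg_left hX1 (by positivity)
      have h8 : 0 ≤ (v : ℤ) * Y := mul_nonneg (by positivity) h6
      linarith
    have h9 : (q : ℤ) ≤ a * s := by
      have h10 : (q : ℤ) * Y ≤ q * (-1) := mul_le_mul_of_nonneg_left hY1 zq.le
      have h11 : 0 ≤ (c : ℤ) * t := mul_nonneg (by positivity) ht0
      linarith
    rcases zs.eq_or_lt with h12 | h12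
    · rw [← h12, mul_zero] at h9
      linarith
    · have h13 : (a : ℤ) * s < c * s := mul_lt_mul_of_pos_right zac h12
      linarith

end Pool.Agent.U10.Q.B
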