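import Mathlib

/-!
# Definitions and package statements: odd characters mod `q` whose value `L(χ, 0)` is prime to `p`
-/

set_option autoImplicit false

namespace Pool.Agent.U10.Q

open Finset

/-- `x` is a unit at the maximal ideal `P` of the ring of all algebraic integers. -/
def UnitAt (P : Ideal (integralClosure ℤ ℂ)) (x : ℂ) : Prop :=
  ∃ a b : integralClosure ℤ ℂ, a ∉ P ∧ b ∉ P ∧ (b : ℂ) * x = (a : ℂ)

/-- The value `L(χ, 0) = - (1 / q) ∑ k χ(k)`, `1 ≤ k < q`. -/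
noncomputable def L0 (q : ℕ) (χ : DirichletCharacter ℂ q) : ℂ :=
  -(1 / (q : ℂ)) * ∑ k ∈ Ico 1 q, (k : ℂ) * χ (k : ZMod q)

/-- The odd characters `χ` modulo `q` for which `L(χ, 0)` is a unit at `P`. -/
def Good (P : Ideal (integralClosure ℤ ℂ)) (q : ℕ) : Set (DirichletCharacter ℂ q) :=
  {χ | χ (-1 : ZMod q) = -1 ∧ UnitAt P (L0 q χ)}

/-- `⌊a b / q⌋ - ⌊a (b - 1) / q⌋`. -/
def D (q a b : ℕ) : ℕ := a * b / q - a * (b - 1) / q

/-- Package A: a triangular system of jumps gives a lower bound for the number of good characters. -/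
def S_A : Prop :=
  ∀ p q : ℕ, p.Prime → p ≠ 2 → q.Prime → q ≠ p → ¬ p ∣ q - 1 →
    ∀ P : Ideal (integralClosure ℤ ℂ), P.IsMaximal → ((p : integralClosure ℤ ℂ) ∈ P) →
      ∀ (T : Finset ℕ) (β : ℕ → ℕ),
        (∀ c ∈ T, 1 ≤ c ∧ c < q ∧ 2 ≤ β c ∧ β c < q ∧ D q c (β c) = 1 ∧
          ∀ a ∈ T, a < c → D q a (β c) = 0) →
        T.card ≤ (Good P q).ncard + 1

/-- `c` divides `q + v s` with `v`, `s` small. -/
def Rep (q c : ℕ) : Prop :=
  ∃ v w s : ℕ, 1 ≤ v ∧ v ≤ w ∧ w < q ∧ c * s ≤ q ∧ s < c ∧ q + v * s = c * w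

/-- Package B: for such `c` some `b` sees the jump of `c` and no jump of a smaller number. -/
def S_B : Prop :=
  ∀ q c : ℕ, q.Prime → c < q → Rep q c →
    ∃ b, 2 ≤ b ∧ b < q ∧ D q c b = 1 ∧ ∀ a, a < c → D q a b = 0

/-- Package C: there are at least `κ q ^ (2 / 3) / log q` such `c`. -/
def S_C : Prop :=
  ∃ κ : ℝ, 0 < κ ∧ ∃ Q : ℕ, ∀ q : ℕ, q.Prime → Q ≤ q →
    κ * (q : ℝ) ^ ((2 : ℝ) / 3) / Real.log q ≤ ({c : ℕ | c < q ∧ Rep q c}.ncard : ℝ)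

/-- The final statement. -/
def Final : Prop :=
  ∃ κ : ℝ, 0 < κ ∧ ∃ Q : ℕ, ∀ p q : ℕ, p.Prime → p ≠ 2 → q.Prime → q ≠ p → ¬ p ∣ q - 1 →
    Q ≤ q → ∀ P : Ideal (integralClosure ℤ ℂ), P.IsMaximal → ((p : integralClosure ℤ ℂ) ∈ P) →
      κ * (q : ℝ) ^ ((2 : ℝ) / 3) / Real.log q ≤ ((Good P q).ncard : ℝ)

theorem assembly (hA : S_A) (hB : S_B) (hC : S_C) : Final := by
  obtain ⟨κ, hκ, Q, hQ⟩ := hC
  -- `κ q ^ (2/3) / log q → ∞`
  have hlim : ∃ Q₁ : ℕ, ∀ q : ℕ, Q₁ ≤ q → 1 ≤ κ / 2 * (q : ℝ) ^ ((2 : ℝ) / 3) / Real.log q := by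
    have h := (isLittleO_log_rpow_atTop (show (0 : ℝ) < 2 / 3 by norm_num)).bound
      (show 0 < κ / 2 by positivity)
    have h1 := tendsto_natCast_atTop_atTop (R := ℝ) |>.eventually h
    obtain ⟨Q₁, hQ₁⟩ := Filter.eventually_atTop.1 (h1.and (Filter.eventually_ge_atTop 2))
    refine ⟨Q₁, fun q hq => ?_⟩
    obtain ⟨h2, h3⟩ := hQ₁ q hq
    have hq2 : (2 : ℝ) ≤ q := by exact_mod_cast h3
    have hlog : 0 < Real.log q := Real.log_pos (by linarith)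
    rw [le_div_iff₀ hlog, one_mul]
    rw [Real.norm_of_nonneg hlog.le, Real.norm_of_nonneg (by positivity)] at h2
    exact h2
  obtain ⟨Q₁, hQ₁⟩ := hlim
  refine ⟨κ / 2, by positivity, max Q Q₁, ?_⟩
  intro p q hp hp2 hq hqp hpq hQq P hP hpP
  have h1 := hQ q hq (le_trans (le_max_left _ _) hQq)
  have h2 := hQ₁ q (le_trans (le_max_right _ _) hQq)
  classical
  set T : Finset ℕ := (range q).filter (fun c => Rep q c) with hT
  have hTc : {c : ℕ | c < q ∧ Rep q c}.ncard = T.card := by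
    rw [← Set.ncard_coe_finset]
    congr 1
    ext c
    simp [hT]
  have hbeta : ∀ c : ℕ, ∃ b : ℕ, c < q → Rep q c → (2 ≤ b ∧ b < q ∧ D q c b = 1 ∧
      ∀ a, a < c → D q a b = 0) := by
    intro c
    by_cases hc : c < q ∧ Rep q c
    · obtain ⟨b, hb⟩ := hB q c hq hc.1 hc.2
      exact ⟨b, fun _ _ => hb⟩
    · exact ⟨0, fun h1 h2 => absurd ⟨h1, h2⟩ hc⟩
  choose β hβ using hbeta
  have h3 := hA p q hp hp2 hq hqp hpq P hP hpP T β (by
    intro c hc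
    simp only [hT, mem_filter, mem_range] at hc
    obtain ⟨hb1, hb2, hb3, hb4⟩ := hβ c hc.1 hc.2
    refine ⟨?_, hc.1, hb1, hb2, hb3, fun a _ ha => hb4 a ha⟩
    rcases Nat.eq_zero_or_pos c with h0 | h0
    · subst h0
      simp [D] at hb3
    · exact h0)
  rw [hTc] at h1
  have h4 : (T.card : ℝ) ≤ (Good P q).ncard + 1 := by exact_mod_cast h3
  have h5 : κ * (q : ℝ) ^ ((2 : ℝ) / 3) / Real.log q =
      2 * (κ / 2 * (q : ℝ) ^ ((2 : ℝ) / 3) / Real.log q) := by ring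
  linarith

end Pool.Agent.U10.Q
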