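import Mathlib
import Pool.Agent.U624.LQ.C

/-! Package C of project LQ (the proof is in `Pool.Agent.U624.LQ.C`). -/

set_option autoImplicit false

namespace Pool.Agent.U10.Q.C

theorem proof : Pool.Agent.U10.Q.S_C := Pool.Agent.U624.LQ.C.proof

end Pool.Agent.U10.Q.C
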