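import Mathlib
import Pool.Agent.U10.Q.Stm

/-!
# Package A (helper332): the rank over the residue field bounds the number of good characters
-/

set_option autoImplicit false

namespace Pool.Agent.U10.Q.A

open Finset

/-- The values of a Dirichlet character modulo a prime are algebraic integers. -/
lemma isIntegral_val {q : ℕ} (hq : q.Prime) (χ : DirichletCharacter ℂ q) (x : ZMod q) :
    IsIntegral ℤ (χ x) := by
  haveI : Fact q.Prime := ⟨hq⟩
  by_cases hx : x = 0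
  · subst hx
    have h0 : χ (0 : ZMod q) = 0 := χ.map_nonunit (by simp)
    rw [h0]
    exact isIntegral_zero
  · have h1 : (χ x) ^ (q - 1) = 1 := by
      rw [← map_pow, ZMod.pow_card_sub_one_eq_one hx, map_one]
    have hq1 : 0 < q - 1 := by
      have := hq.two_le
      omega
    exact IsIntegral.of_pow hq1 (by rw [h1]; exact isIntegral_one)

/-- The value as an algebraic integer. -/
noncomputable def v {q : ℕ} (hq : q.Prime) (χ : DirichletCharacter ℂ q) (x : ZMod q) :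
    integralClosure ℤ ℂ := ⟨χ x, isIntegral_val hq χ x⟩

lemma v_coe {q : ℕ} (hq : q.Prime) (χ : DirichletCharacter ℂ q) (x : ZMod q) :
    ((v hq χ x : integralClosure ℤ ℂ) : ℂ) = χ x := rfl

lemma v_mul {q : ℕ} (hq : q.Prime) (χ : DirichletCharacter ℂ q) (x y : ZMod q) :
    v hq χ (x * y) = v hq χ x * v hq χ y := by
  apply Subtype.ext
  show χ (x * y) = χ x * χ y
  exact map_mul χ x y

/-- The odd function `2 x - q`, `0 ≤ x < q`. -/
def f {q : ℕ} (x : ZMod q) : ℤ := 2 * (x.val : ℤ) - q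

/-- The sum `∑ (2 x - q) χ(x)` as an algebraic integer. -/
noncomputable def tau {q : ℕ} [NeZero q] (hq : q.Prime) (χ : DirichletCharacter ℂ q) :
    integralClosure ℤ ℂ := ∑ x : ZMod q, ((f x : ℤ) : integralClosure ℤ ℂ) * v hq χ x

lemma tau_coe {q : ℕ} [NeZero q] (hq : q.Prime) (χ : DirichletCharacter ℂ q) :
    ((tau hq χ : integralClosure ℤ ℂ) : ℂ) = ∑ x : ZMod q, ((f x : ℤ) : ℂ) * χ x := by
  unfold tau
  push_cast
  rfl

lemma f_neg {q : ℕ} [NeZero q] {x : ZMod q} (hx : x ≠ 0) : f (-x) = -f x := by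
  unfold f
  haveI : NeZero x := ⟨hx⟩
  rw [ZMod.val_neg_of_ne_zero]
  have := ZMod.val_lt x
  push_cast [this.le]
  ring

lemma tau_even {q : ℕ} [NeZero q] (hq : q.Prime) (χ : DirichletCharacter ℂ q)
    (h : χ (-1 : ZMod q) = 1) : tau hq χ = 0 := by
  apply Subtype.ext
  rw [tau_coe]
  show (∑ x : ZMod q, ((f x : ℤ) : ℂ) * χ x) = 0
  have h1 : (∑ x : ZMod q, ((f x : ℤ) : ℂ) * χ x) = ∑ x : ZMod q, ((f (-x) : ℤ) : ℂ) * χ (-x) :=
    (Equiv.sum_comp (Equiv.neg (ZMod q)) (fun x => ((f x : ℤ) : ℂ) * χ x)).symm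
  have h2 : ∀ x : ZMod q, ((f (-x) : ℤ) : ℂ) * χ (-x) = -(((f x : ℤ) : ℂ) * χ x) := by
    intro x
    by_cases hx : x = 0
    · subst hx
      haveI : Fact q.Prime := ⟨hq⟩
      have h0 : χ (0 : ZMod q) = 0 := χ.map_nonunit (by simp)
      simp [h0]
    · have h3 : χ (-x) = χ x := by
        rw [show -x = (-1) * x by ring, map_mul, h, one_mul]
      rw [f_neg hx, h3]
      push_cast
      ring
  rw [sum_congr rfl (fun x _ => h2 x), sum_neg_distrib] at h1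
  exact CharZero.eq_neg_self_iff.mp h1

/-- The sum `∑ x χ(x)` as an algebraic integer. -/
noncomputable def sg {q : ℕ} [NeZero q] (hq : q.Prime) (χ : DirichletCharacter ℂ q) :
    integralClosure ℤ ℂ := ∑ x : ZMod q, ((x.val : ℕ) : integralClosure ℤ ℂ) * v hq χ x

lemma sg_coe {q : ℕ} [NeZero q] (hq : q.Prime) (χ : DirichletCharacter ℂ q) :
    ((sg hq χ : integralClosure ℤ ℂ) : ℂ) = ∑ k ∈ Ico 1 q, (k : ℂ) * χ (k : ZMod q) := by
  have h1 : ((sg hq χ : integralClosure ℤ ℂ) : ℂ) = ∑ x : ZMod q, ((x.val : ℕ) : ℂ) * χ x := by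
    unfold sg
    push_cast
    rfl
  rw [h1]
  have h2 : (∑ x : ZMod q, ((x.val : ℕ) : ℂ) * χ x) = ∑ k ∈ range q, (k : ℂ) * χ (k : ZMod q) := by
    refine sum_nbij' (fun x => x.val) (fun k => (k : ZMod q)) ?_ ?_ ?_ ?_ ?_
    · intro x _
      exact mem_range.2 (ZMod.val_lt x)
    · intro k _
      exact mem_univ _
    · intro x _
      exact ZMod.natCast_zmod_val x
    · intro k hk
      exact ZMod.val_cast_of_lt (mem_range.1 hk)
    · intro x _
      rw [ZMod.natCast_zmod_val]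
  rw [h2, range_eq_Ico, sum_eq_sum_Ico_succ_bot hq.pos]
  simp

lemma tau_odd {q : ℕ} [NeZero q] (hq : q.Prime) (χ : DirichletCharacter ℂ q)
    (h : χ (-1 : ZMod q) = -1) : tau hq χ = 2 * sg hq χ := by
  have hne : χ ≠ 1 := by
    rintro rfl
    have h1 : (1 : DirichletCharacter ℂ q) (-1 : ZMod q) = 1 :=
      MulChar.one_apply (IsUnit.neg isUnit_one)
    rw [h1] at h
    norm_num at h
  apply Subtype.ext
  have h0 : ∑ x : ZMod q, χ x = 0 := MulChar.sum_eq_zero_of_ne_one hne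
  have h1 : ((2 * sg hq χ : integralClosure ℤ ℂ) : ℂ) =
      2 * ∑ x : ZMod q, ((x.val : ℕ) : ℂ) * χ x := by
    unfold sg
    push_cast
    rfl
  rw [tau_coe, h1]
  have h2 : ∀ x : ZMod q, ((f x : ℤ) : ℂ) * χ x = 2 * (((x.val : ℕ) : ℂ) * χ x) - (q : ℂ) * χ x := by
    intro x
    unfold f
    push_cast
    ring
  rw [sum_congr rfl (fun x _ => h2 x), sum_sub_distrib, ← mul_sum, ← mul_sum, h0]
  ring

/-- Orthogonality: the values of `f` from the sums `tau`. -/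
lemma ortho {q : ℕ} [NeZero q] (hq : q.Prime) {x : ZMod q} (hx : x ≠ 0) :
    ((q - 1 : ℕ) : integralClosure ℤ ℂ) * ((f x : ℤ) : integralClosure ℤ ℂ) =
      ∑ χ : DirichletCharacter ℂ q, tau hq χ * v hq χ x⁻¹ := by
  haveI : Fact q.Prime := ⟨hq⟩
  apply Subtype.ext
  have h1 : ((∑ χ : DirichletCharacter ℂ q, tau hq χ * v hq χ x⁻¹ : integralClosure ℤ ℂ) : ℂ) =
      ∑ χ : DirichletCharacter ℂ q, (∑ y : ZMod q, ((f y : ℤ) : ℂ) * χ y) * χ x⁻¹ := by
    push_cast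
    refine sum_congr rfl (fun χ _ => ?_)
    rw [tau_coe, v_coe]
  rw [h1]
  have h2 : ∀ χ : DirichletCharacter ℂ q, (∑ y : ZMod q, ((f y : ℤ) : ℂ) * χ y) * χ x⁻¹ =
      ∑ y : ZMod q, ((f y : ℤ) : ℂ) * (χ x⁻¹ * χ y) := by
    intro χ
    rw [sum_mul]
    refine sum_congr rfl (fun y _ => ?_)
    ring
  rw [sum_congr rfl (fun χ _ => h2 χ), sum_comm]
  have hu : IsUnit x := isUnit_iff_ne_zero.2 hx
  have h3 : ∀ y : ZMod q, (∑ χ : DirichletCharacter ℂ q, ((f y : ℤ) : ℂ) * (χ x⁻¹ * χ y)) =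
      if x = y then ((f y : ℤ) : ℂ) * (q.totient : ℂ) else 0 := by
    intro y
    rw [← mul_sum, DirichletCharacter.sum_char_inv_mul_char_eq ℂ hu y]
    split_ifs <;> simp
  rw [sum_congr rfl (fun y _ => h3 y), sum_ite_eq]
  simp only [mem_univ, if_true]
  rw [Nat.totient_prime hq]
  push_cast
  show (((q - 1 : ℕ) : integralClosure ℤ ℂ) : ℂ) * (((f x : ℤ) : integralClosure ℤ ℂ) : ℂ) = _
  push_cast
  ring

lemma f_mul {q : ℕ} (c b : ℕ) : f ((c : ZMod q) * (b : ZMod q)) = 2 * (((c * b) % q : ℕ) : ℤ) - q := by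
  unfold f
  rw [← Nat.cast_mul, ZMod.val_natCast]

lemma f_diff {q : ℕ} (c b : ℕ) (hb : 1 ≤ b) :
    f ((c : ZMod q) * (b : ZMod q)) - f ((c : ZMod q) * ((b - 1 : ℕ) : ZMod q)) =
      2 * (c : ℤ) - 2 * (q : ℤ) * (D q c b : ℤ) := by
  obtain ⟨b, rfl⟩ : ∃ b', b = b' + 1 := ⟨b - 1, by omega⟩
  rw [Nat.add_sub_cancel, f_mul, f_mul]
  unfold D
  rw [Nat.add_sub_cancel]
  have h1 : c * b / q ≤ c * (b + 1) / q :=
    Nat.div_le_div_right (Nat.mul_le_mul_left c (Nat.le_succ b))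
  have h2 : (((c * (b + 1)) % q : ℕ) : ℤ) = ((c * (b + 1) : ℕ) : ℤ) - q * ((c * (b + 1) / q : ℕ) : ℤ) := by
    have h := Nat.div_add_mod (c * (b + 1)) q
    have h' : ((q * (c * (b + 1) / q) + (c * (b + 1)) % q : ℕ) : ℤ) = ((c * (b + 1) : ℕ) : ℤ) := by
      rw [h]
    rw [Nat.cast_add, Nat.cast_mul] at h'
    linarith
  have h3 : (((c * b) % q : ℕ) : ℤ) = ((c * b : ℕ) : ℤ) - q * ((c * b / q : ℕ) : ℤ) := by
    have h := Nat.div_add_mod (c * b) q
    have h' : ((q * (c * b / q) + (c * b) % q : ℕ) : ℤ) = ((c * b : ℕ) : ℤ) := by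
      rw [h]
    rw [Nat.cast_add, Nat.cast_mul] at h'
    linarith
  rw [h2, h3, Nat.cast_sub h1, Nat.cast_mul, Nat.cast_mul, Nat.cast_add, Nat.cast_one]
  ring

/-- The identity for the jumps, over the ring of algebraic integers. -/
lemma jump {q : ℕ} [NeZero q] (hq : q.Prime) {c b : ℕ} (hc1 : 1 ≤ c) (hcq : c < q) (hb2 : 2 ≤ b)
    (hbq : b < q) :
    ((q - 1 : ℕ) : integralClosure ℤ ℂ) * (2 * (c : integralClosure ℤ ℂ) -
        2 * (q : integralClosure ℤ ℂ) * (D q c b : integralClosure ℤ ℂ)) =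
      ∑ χ : DirichletCharacter ℂ q, tau hq χ * (v hq χ (b : ZMod q)⁻¹ -
        v hq χ ((b - 1 : ℕ) : ZMod q)⁻¹) * v hq χ (c : ZMod q)⁻¹ := by
  haveI : Fact q.Prime := ⟨hq⟩
  have hc : (c : ZMod q) ≠ 0 := by
    intro h
    rw [ZMod.natCast_eq_zero_iff] at h
    exact absurd (Nat.le_of_dvd hc1 h) (by omega)
  have hb : (b : ZMod q) ≠ 0 := by
    intro h
    rw [ZMod.natCast_eq_zero_iff] at h
    exact absurd (Nat.le_of_dvd (by omega) h) (by omega)
  have hb' : ((b - 1 : ℕ) : ZMod q) ≠ 0 := by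
    intro h
    rw [ZMod.natCast_eq_zero_iff] at h
    exact absurd (Nat.le_of_dvd (by omega) h) (by omega)
  have h1 := ortho hq (mul_ne_zero hc hb)
  have h2 := ortho hq (mul_ne_zero hc hb')
  have h3 : ((2 * (c : ℤ) - 2 * (q : ℤ) * (D q c b : ℤ) : ℤ) : integralClosure ℤ ℂ) =
      2 * (c : integralClosure ℤ ℂ) -
        2 * (q : integralClosure ℤ ℂ) * (D q c b : integralClosure ℤ ℂ) := by
    push_cast
    ring
  rw [← h3, ← f_diff c b (by omega)]
  push_cast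
  rw [mul_sub, h1, h2, ← sum_sub_distrib]
  refine sum_congr rfl (fun χ _ => ?_)
  rw [mul_inv, mul_inv, v_mul, v_mul]
  ring

theorem proof : S_A := by
  intro p q hp hp2 hq hqp hpq P hP hpP T β hT
  haveI : NeZero q := ⟨hq.ne_zero⟩
  haveI : Fact q.Prime := ⟨hq⟩
  classical
  haveI := hP
  letI : Field (integralClosure ℤ ℂ ⧸ P) := Ideal.Quotient.field P
  -- numbers prime to `p` are not in `P`
  have hcop : ∀ n : ℕ, Nat.Coprime p n → (n : integralClosure ℤ ℂ) ∉ P := by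
    intro n hn hmem
    obtain ⟨a, b, hab⟩ : ∃ a b : ℤ, a * p + b * n = 1 := by
      have h := (Nat.isCoprime_iff_coprime.2 hn)
      obtain ⟨a, b, hab⟩ := h
      exact ⟨a, b, by exact_mod_cast hab⟩
    have h1 : (1 : integralClosure ℤ ℂ) = (a : integralClosure ℤ ℂ) * (p : integralClosure ℤ ℂ) +
        (b : integralClosure ℤ ℂ) * (n : integralClosure ℤ ℂ) := by
      have h2 := congrArg (fun z : ℤ => (z : integralClosure ℤ ℂ)) hab
      push_cast at h2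
      exact h2.symm
    have h3 : (1 : integralClosure ℤ ℂ) ∈ P := by
      rw [h1]
      exact P.add_mem (P.mul_mem_left _ hpP) (P.mul_mem_left _ hmem)
    exact hP.ne_top ((Ideal.eq_top_iff_one P).2 h3)
  have hqP : (q : integralClosure ℤ ℂ) ∉ P := hcop q ((Nat.coprime_primes hp hq).2 (Ne.symm hqp))
  have h2P : ((2 : ℕ) : integralClosure ℤ ℂ) ∉ P := hcop 2 ((Nat.coprime_primes hp Nat.prime_two).2 hp2)
  have hq1P : ((q - 1 : ℕ) : integralClosure ℤ ℂ) ∉ P :=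
    hcop (q - 1) ((Nat.Prime.coprime_iff_not_dvd hp).2 hpq)
  set ρ : integralClosure ℤ ℂ →+* (integralClosure ℤ ℂ ⧸ P) := Ideal.Quotient.mk P with hρ
  have hρ0 : ∀ x, ρ x = 0 ↔ x ∈ P := fun x => Ideal.Quotient.eq_zero_iff_mem
  set S : Finset (DirichletCharacter ℂ q) := univ.filter (fun χ => ρ (tau hq χ) ≠ 0) with hS
  -- the characters in `S` are good
  have hSG : (S : Set (DirichletCharacter ℂ q)) ⊆ Good P q := by
    intro χ hχ
    have hχ' : ρ (tau hq χ) ≠ 0 := by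
      simpa [hS] using hχ
    have hodd : χ (-1 : ZMod q) = -1 := by
      rcases χ.even_or_odd with h | h
      · exfalso
        apply hχ'
        rw [tau_even hq χ h, map_zero]
      · exact h
    refine ⟨hodd, ?_⟩
    refine ⟨-sg hq χ, (q : integralClosure ℤ ℂ), ?_, hqP, ?_⟩
    · intro hmem
      apply hχ'
      rw [hρ0, tau_odd hq χ hodd]
      exact P.mul_mem_left _ (by simpa using P.neg_mem hmem)
    · unfold L0
      rw [← sg_coe hq χ]
      have hq0 : (q : ℂ) ≠ 0 := by exact_mod_cast hq.ne_zero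
      push_cast
      field_simp
  have hcard : S.card ≤ (Good P q).ncard := by
    rw [← Set.ncard_coe_finset]
    exact Set.ncard_le_ncard hSG (Set.toFinite _)
  refine le_trans ?_ (Nat.add_le_add_right hcard 1)
  -- the matrices
  let M : Matrix T T (integralClosure ℤ ℂ ⧸ P) := fun i j => ((D q j.1 (β i.1) : ℕ) : _)
  let A : Matrix T (Option S) (integralClosure ℤ ℂ ⧸ P) := fun i o =>
    match o with
    | none => 1
    | some χ => -(ρ (tau hq χ.1) * (ρ (v hq χ.1 ((β i.1 : ℕ) : ZMod q)⁻¹) -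
        ρ (v hq χ.1 ((β i.1 - 1 : ℕ) : ZMod q)⁻¹)))
  let B : Matrix (Option S) T (integralClosure ℤ ℂ ⧸ P) := fun o j =>
    match o with
    | none => ((q - 1 : ℕ) : (integralClosure ℤ ℂ ⧸ P)) * (2 * (j.1 : (integralClosure ℤ ℂ ⧸ P)))
    | some χ => ρ (v hq χ.1 ((j.1 : ℕ) : ZMod q)⁻¹)
  set u : (integralClosure ℤ ℂ ⧸ P) := ((q - 1 : ℕ) : (integralClosure ℤ ℂ ⧸ P)) * (2 * (q : (integralClosure ℤ ℂ ⧸ P))) with hu
  have hu0 : u ≠ 0 := by
    have h1 : ((q - 1 : ℕ) : (integralClosure ℤ ℂ ⧸ P)) ≠ 0 := by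
      have h := mt (hρ0 _).1 hq1P
      rwa [map_natCast] at h
    have h2 : (q : (integralClosure ℤ ℂ ⧸ P)) ≠ 0 := by
      have h := mt (hρ0 _).1 hqP
      rwa [map_natCast] at h
    have h3 : (2 : (integralClosure ℤ ℂ ⧸ P)) ≠ 0 := by
      have h := mt (hρ0 _).1 h2P
      rwa [map_natCast, Nat.cast_ofNat] at h
    exact mul_ne_zero h1 (mul_ne_zero h3 h2)
  have hAB : A * B = u • M := by
    ext i j
    obtain ⟨hi1, hiq, hi2, hibq, -, -⟩ := hT i.1 i.2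
    obtain ⟨hj1, hjq, -, -, -, -⟩ := hT j.1 j.2
    rw [Matrix.mul_apply, Fintype.sum_option, Matrix.smul_apply, smul_eq_mul]
    have hj := congrArg ρ (jump hq hj1 hjq hi2 hibq)
    rw [map_mul, map_natCast, map_sub, map_mul, map_mul, map_mul, map_natCast, map_natCast,
      map_natCast, map_sum] at hj
    have h2 : ρ 2 = 2 := map_ofNat ρ 2
    rw [h2] at hj
    have hsum : (∑ χ : DirichletCharacter ℂ q, ρ (tau hq χ * (v hq χ ((β i.1 : ℕ) : ZMod q)⁻¹ -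
        v hq χ ((β i.1 - 1 : ℕ) : ZMod q)⁻¹) * v hq χ ((j.1 : ℕ) : ZMod q)⁻¹)) =
        ∑ χ : S, ρ (tau hq χ.1) * (ρ (v hq χ.1 ((β i.1 : ℕ) : ZMod q)⁻¹) -
        ρ (v hq χ.1 ((β i.1 - 1 : ℕ) : ZMod q)⁻¹)) * ρ (v hq χ.1 ((j.1 : ℕ) : ZMod q)⁻¹) := by
      rw [Finset.sum_coe_sort S (fun χ => ρ (tau hq χ) * (ρ (v hq χ ((β i.1 : ℕ) : ZMod q)⁻¹) -
        ρ (v hq χ ((β i.1 - 1 : ℕ) : ZMod q)⁻¹)) * ρ (v hq χ ((j.1 : ℕ) : ZMod q)⁻¹))]
      rw [hS, sum_filter_of_ne]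
      · refine sum_congr rfl (fun χ _ => ?_)
        rw [map_mul, map_mul, map_sub]
      · intro χ _ hne h0
        apply hne
        rw [h0, zero_mul, zero_mul]
    rw [hsum] at hj
    show (1 : (integralClosure ℤ ℂ ⧸ P)) * (((q - 1 : ℕ) : (integralClosure ℤ ℂ ⧸ P)) * (2 * (j.1 : (integralClosure ℤ ℂ ⧸ P)))) +
      ∑ χ : S, (-(ρ (tau hq χ.1) * (ρ (v hq χ.1 ((β i.1 : ℕ) : ZMod q)⁻¹) -
        ρ (v hq χ.1 ((β i.1 - 1 : ℕ) : ZMod q)⁻¹)))) * ρ (v hq χ.1 ((j.1 : ℕ) : ZMod q)⁻¹) =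
      u * ((D q j.1 (β i.1) : ℕ) : (integralClosure ℤ ℂ ⧸ P))
    have hneg : (∑ χ : S, (-(ρ (tau hq χ.1) * (ρ (v hq χ.1 ((β i.1 : ℕ) : ZMod q)⁻¹) -
        ρ (v hq χ.1 ((β i.1 - 1 : ℕ) : ZMod q)⁻¹)))) * ρ (v hq χ.1 ((j.1 : ℕ) : ZMod q)⁻¹)) =
        -∑ χ : S, ρ (tau hq χ.1) * (ρ (v hq χ.1 ((β i.1 : ℕ) : ZMod q)⁻¹) -
        ρ (v hq χ.1 ((β i.1 - 1 : ℕ) : ZMod q)⁻¹)) * ρ (v hq χ.1 ((j.1 : ℕ) : ZMod q)⁻¹) := by
      rw [← sum_neg_distrib]
      refine sum_congr rfl (fun χ _ => ?_)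
      ring
    rw [hneg, ← hj, hu]
    ring
  have hM : M.det = 1 := by
    have htri : M.BlockTriangular id := by
      intro i j hij
      obtain ⟨-, -, -, -, -, h⟩ := hT i.1 i.2
      show ((D q j.1 (β i.1) : ℕ) : (integralClosure ℤ ℂ ⧸ P)) = 0
      rw [h j.1 j.2 hij, Nat.cast_zero]
    rw [Matrix.det_of_upperTriangular htri]
    refine prod_eq_one (fun i _ => ?_)
    obtain ⟨-, -, -, -, h, -⟩ := hT i.1 i.2
    show ((D q i.1 (β i.1) : ℕ) : (integralClosure ℤ ℂ ⧸ P)) = 1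
    rw [h, Nat.cast_one]
  have hunit : IsUnit (A * B) := by
    rw [hAB, Matrix.isUnit_iff_isUnit_det, Matrix.det_smul, hM, mul_one]
    exact (IsUnit.mk0 u hu0).pow _
  have h1 := Matrix.rank_of_isUnit (A * B) hunit
  have h2 := (Matrix.rank_mul_le_left A B).trans (Matrix.rank_le_card_width A)
  rw [h1, Fintype.card_option, Fintype.card_coe, Fintype.card_coe] at h2
  exact h2

end Pool.Agent.U10.Q.A
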